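import Pool.Agent.Lib.MP_c8b4d4_an.Seq

/-!
`MP_c8b4d4_an`, Q1: a unital separable simple purely infinite C*-algebra which is not
`*`-isomorphic to its opposite algebra. Pure infiniteness is the condition of the problem file:
the algebra is not `ℂ` and every nonzero hereditary C*-subalgebra contains an infinite projection.
-/

set_option autoImplicit false

namespace Pool.Agent.Results.MP_c8b4d4_an.PurelyInfinite

section Defs

variable (A : Type) [NonUnitalCStarAlgebra A]

/-- There is no closed two-sided ideal besides `0` and `A`. -/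
def Simple : Prop :=
  ∀ I : Submodule ℂ A, IsClosed (I : Set A) → (∀ a : A, ∀ x ∈ I, a * x ∈ I ∧ x * a ∈ I) →
    I = ⊥ ∨ I = ⊤

variable {A}

/-- The element is positive. -/
def Pos (a : A) : Prop := ∃ c : A, a = star c * c

/-- A hereditary C*-subalgebra: a norm closed `*`-subalgebra which contains every `a` with
`0 ≤ a ≤ b` for some `b` in it. -/
def Hereditary (B : NonUnitalStarSubalgebra ℂ A) : Prop :=
  IsClosed (B : Set A) ∧ ∀ a b : A, b ∈ B → Pos a → Pos (b - a) → a ∈ B

/-- An infinite projection: a projection `p` with `v^* v = p` for some `v` whose range projection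
`v v^*` is a proper subprojection of `p`. -/
def InfiniteProjection (p : A) : Prop :=
  p * p = p ∧ star p = p ∧ ∃ v : A, star v * v = p ∧ p * (v * star v) = v * star v ∧
    v * star v ≠ p

variable (A)

/-- Not isomorphic to `ℂ`, and each nonzero hereditary C*-subalgebra contains an infinite
projection. -/
def IsPurelyInfinite : Prop :=
  IsEmpty (A ≃⋆ₐ[ℂ] ℂ) ∧
    ∀ B : NonUnitalStarSubalgebra ℂ A, Hereditary B → (∃ b ∈ B, b ≠ 0) →
      ∃ p ∈ B, InfiniteProjection p

end Defs

section Generic

variable {A : Type} [CStarAlgebra A]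

theorem exact_of_approx (hpi : ∀ c : A, c ≠ 0 → ∀ ε : ℝ, 0 < ε →
      ∃ z : A, ‖star z * (star c * c) * z - 1‖ < ε) (c : A) (hc : c ≠ 0) :
    ∃ x : A, star x * (star c * c) * x = 1 := by
  let _ : PartialOrder A := CStarAlgebra.spectralOrder A
  have _ : StarOrderedRing A := CStarAlgebra.spectralOrderedRing A
  obtain ⟨z, hz⟩ := hpi c hc 1 one_pos
  set k : A := star z * (star c * c) * z with hk
  have hk0 : 0 ≤ k := by
    have : k = star (c * z) * (c * z) := by rw [hk, star_mul]; noncomm_ring
    rw [this]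
    exact star_mul_self_nonneg _
  have hku : IsUnit k := by
    have h1 : ‖(1 : A) - k‖ < 1 := by rw [norm_sub_rev]; exact hz
    have := (Units.oneSub (1 - k) h1).isUnit
    simpa using this
  set r : A := CFC.sqrt k with hr
  have hrr : r * r = k := CFC.sqrt_mul_sqrt_self k hk0
  have hr0 : 0 ≤ r := CFC.sqrt_nonneg k
  have hrs : star r = r := (IsSelfAdjoint.of_nonneg hr0)
  have hru : IsUnit r := by
    have h1 : IsUnit (r * r) := by rw [hrr]; exact hku
    exact (Commute.isUnit_mul_iff (Commute.refl r)).1 h1 |>.1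
  obtain ⟨u, hu⟩ := hru
  have hus : star ((u⁻¹ : Aˣ) : A) = ((u⁻¹ : Aˣ) : A) := by
    have h1 : (u : A) * star ((u⁻¹ : Aˣ) : A) = 1 := by
      have : (u : A) = star (u : A) := by rw [hu, hrs]
      rw [this, ← star_mul, Units.inv_mul, star_one]
    calc star ((u⁻¹ : Aˣ) : A) = ((u⁻¹ : Aˣ) : A) * ((u : A) * star ((u⁻¹ : Aˣ) : A)) := by
          rw [← mul_assoc, Units.inv_mul, one_mul]
      _ = ((u⁻¹ : Aˣ) : A) := by rw [h1, mul_one]
  refine ⟨z * ((u⁻¹ : Aˣ) : A), ?_⟩
  have e : star (z * ((u⁻¹ : Aˣ) : A)) * (star c * c) * (z * ((u⁻¹ : Aˣ) : A)) =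
      ((u⁻¹ : Aˣ) : A) * k * ((u⁻¹ : Aˣ) : A) := by
    rw [star_mul, hus, hk]
    noncomm_ring
  rw [e, ← hrr, ← hu]
  rw [← mul_assoc ((u⁻¹ : Aˣ) : A), Units.inv_mul, one_mul, Units.mul_inv]

theorem hered_mem {B : NonUnitalStarSubalgebra ℂ A} (hB : Hereditary B) {g : A} (hg : g ∈ B)
    (hgs : star g = g) (a : A) : g * a * g ∈ B := by
  let _ : PartialOrder A := CStarAlgebra.spectralOrder A
  have _ : StarOrderedRing A := CStarAlgebra.spectralOrderedRing A
  have key : ∀ d : A, g * (star d * d) * g ∈ B := by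
    intro d
    have h1 : star d * d ≤ algebraMap ℝ A (‖d‖ ^ 2) := CStarAlgebra.star_mul_le_algebraMap_norm_sq
    have h2 : 0 ≤ algebraMap ℝ A (‖d‖ ^ 2) - star d * d := sub_nonneg.2 h1
    obtain ⟨t, ht⟩ := CStarAlgebra.nonneg_iff_eq_star_mul_self.1 h2
    refine hB.2 (g * (star d * d) * g) (((‖d‖ ^ 2 : ℝ) : ℂ) • (g * g)) ?_ ?_ ?_
    · exact SMulMemClass.smul_mem _ (mul_mem hg hg)
    · refine ⟨d * g, ?_⟩
      rw [star_mul, hgs]
      noncomm_ring
    · refine ⟨t * g, ?_⟩
      have h3 : star (t * g) * (t * g) = g * (star t * t) * g := by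
        rw [star_mul, hgs]; noncomm_ring
      rw [h3, ← ht, mul_sub, sub_mul]
      congr 1
      rw [Algebra.algebraMap_eq_smul_one, mul_smul_comm, mul_one, smul_mul_assoc]
      exact (RCLike.real_smul_eq_coe_smul (K := ℂ) (‖d‖ ^ 2) (g * g)).symm
  have e : g * a * g = (1 / 4 : ℂ) • (g * (star (1 + a) * (1 + a)) * g -
      g * (star (1 - a) * (1 - a)) * g - Complex.I • (g * (star (1 + Complex.I • a) *
        (1 + Complex.I • a)) * g) + Complex.I • (g * (star (1 - Complex.I • a) *
        (1 - Complex.I • a)) * g)) := by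
    have hI : Complex.I • Complex.I • (g * a * g) = - (g * a * g) := by
      rw [smul_smul, Complex.I_mul_I, neg_smul, one_smul]
    have hI2 : Complex.I • Complex.I • (g * star a * g) = - (g * star a * g) := by
      rw [smul_smul, Complex.I_mul_I, neg_smul, one_smul]
    simp only [star_add, star_sub, star_one, star_smul, RCLike.star_def, Complex.conj_I]
    have e4 : (4 : ℂ) • (g * a * g) = g * ((1 + star a) * (1 + a)) * g -
      g * ((1 - star a) * (1 - a)) * g - Complex.I • (g * ((1 + -Complex.I • star a) *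
        (1 + Complex.I • a)) * g) + Complex.I • (g * ((1 - -Complex.I • star a) *
        (1 - Complex.I • a)) * g) := by
      simp only [mul_add, add_mul, mul_sub, sub_mul, mul_one, one_mul, smul_add, smul_sub,
        mul_smul_comm, smul_mul_assoc, neg_smul, mul_neg, neg_mul, smul_neg, hI, hI2]
      have : (4 : ℂ) • (g * a * g) = g * a * g + g * a * g + g * a * g + g * a * g := by
        rw [show (4 : ℂ) = 1 + 1 + 1 + 1 by norm_num]
        simp only [add_smul, one_smul]
      rw [this]
      abel
    rw [← e4, smul_smul]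
    norm_num
  rw [e]
  refine SMulMemClass.smul_mem _ ?_
  exact add_mem (sub_mem (sub_mem (key _) (key _)) (SMulMemClass.smul_mem _ (key _)))
    (SMulMemClass.smul_mem _ (key _))

theorem pi_of (hex : ∀ c : A, c ≠ 0 → ∃ x : A, star x * (star c * c) * x = 1)
    (s : A) (hs : star s * s = 1) (hs' : s * star s ≠ 1) : IsPurelyInfinite A := by
  refine ⟨⟨fun φ => ?_⟩, ?_⟩
  · apply hs'
    apply φ.injective
    rw [map_mul, mul_comm, ← map_mul, hs]
  · rintro B hB ⟨b, hb, hb0⟩
    set g : A := star b * b with hgdef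
    have hg : g ∈ B := mul_mem (star_mem hb) hb
    have hgs : star g = g := by rw [hgdef, star_mul, star_star]
    have hg0 : g ≠ 0 := by
      rw [hgdef]
      exact (CStarRing.star_mul_self_ne_zero_iff b).2 hb0
    obtain ⟨x, hx⟩ := hex g hg0
    set v : A := g * x with hv
    have hvv : star v * v = 1 := by
      rw [hv, star_mul]
      rw [← hx]
      noncomm_ring
    have hmem : ∀ y : A, v * y * star v ∈ B := by
      intro y
      have : v * y * star v = g * (x * y * star x) * g := by
        rw [hv, star_mul, hgs]; noncomm_ring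
      rw [this]
      exact hered_mem hB hg hgs _
    have hp : v * star v ∈ B := by
      have := hmem 1
      rwa [mul_one] at this
    refine ⟨v * star v, hp, ?_, ?_, v * s * star v, ?_, ?_, ?_⟩
    · calc v * star v * (v * star v) = v * (star v * v) * star v := by noncomm_ring
        _ = v * star v := by rw [hvv, mul_one]
    · rw [star_mul, star_star]
    · calc star (v * s * star v) * (v * s * star v)
          = v * (star s * ((star v * v) * s)) * star v := by
            simp only [star_mul, star_star]; noncomm_ring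
        _ = v * star v := by rw [hvv, one_mul, hs, mul_one]
    · calc v * star v * (v * s * star v * star (v * s * star v))
          = v * ((star v * v) * s) * star v * star (v * s * star v) := by noncomm_ring
        _ = v * s * star v * star (v * s * star v) := by rw [hvv, one_mul]
    · intro h
      apply hs'
      have h1 : v * s * star v * star (v * s * star v) = v * (s * ((star v * v) * star s)) *
          star v := by
        simp only [star_mul, star_star]; noncomm_ring
      rw [h1, hvv, one_mul] at h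
      calc s * star s = (star v * v) * (s * star s) * (star v * v) := by rw [hvv]; noncomm_ring
        _ = star v * (v * (s * star s) * star v) * v := by noncomm_ring
        _ = star v * (v * star v) * v := by rw [h]
        _ = (star v * v) * (star v * v) := by noncomm_ring
        _ = 1 := by rw [hvv, one_mul]

end Generic

open Pool.Agent.C8B in
/-- There is a unital separable C*-algebra which is simple (it even has no two-sided ideals at
all besides `0` and itself), purely infinite (and even satisfies the exact comparison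
`x^* (c^* c) x = 1` for every `c ≠ 0`), and is not `*`-isomorphic to its opposite algebra:
it has no linear `*`-anti-automorphism. -/
theorem result : ∃ (A : Type) (_ : CStarAlgebra A),
    TopologicalSpace.SeparableSpace A ∧
    Nontrivial A ∧
    Simple A ∧
    IsSimpleRing A ∧
    IsPurelyInfinite A ∧
    (∀ c : A, c ≠ 0 → ∃ x : A, star x * (star c * c) * x = 1) ∧
    IsEmpty (A ≃⋆ₐ[ℂ] Aᵐᵒᵖ) ∧
    ¬ ∃ φ : A →ₗ[ℂ] A, Function.Bijective φ ∧ (∀ a b : A, φ (a * b) = φ b * φ a) ∧
      ∀ a : A, φ (star a) = star (φ a) := by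
  obtain ⟨X, ω, h0, hX0, hemp⟩ := main_exists
  set D := Xr X ω with hD
  have hD0 : D ⟨0, h0⟩ = ⟨1, fun _ => 1⟩ := hX0
  have hcl : IsClosed ((Aalg D : StarSubalgebra ℂ (Fk D Set.univ →L[ℂ] Fk D Set.univ)) :
      Set (Fk D Set.univ →L[ℂ] Fk D Set.univ)) := StarSubalgebra.isClosed_topologicalClosure _
  let l0 : Lett D Set.univ := ⟨(0, 0, 0), h0, by
    change 0 < (D ⟨0, h0⟩).1
    rw [hD0]
    exact Nat.one_pos, Set.mem_univ _⟩
  have hmem : cr l0 ∈ Aalg D :=
    StarSubalgebra.le_topologicalClosure _ (StarAlgebra.subset_adjoin ℂ _ (Or.inl ⟨l0, rfl⟩))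
  have hne1 : (1 : Fk D Set.univ →L[ℂ] Fk D Set.univ) ≠ 0 := by
    intro h
    have h1 : (1 : Fk D Set.univ →L[ℂ] Fk D Set.univ) (bas []) = 0 := by rw [h]; rfl
    have h2 := (bas_orthonormal (D := D) (q := Set.univ)).1 []
    rw [show (bas [] : Fk D Set.univ) = 0 from h1, norm_zero] at h2
    exact zero_ne_one h2
  have hnt : Nontrivial (Aalg D) := ⟨⟨0, 1, fun h => hne1 (congrArg Subtype.val h).symm⟩⟩
  have hpi : ∀ c : Aalg D, c ≠ 0 → ∀ ε : ℝ, 0 < ε →
      ∃ z : Aalg D, ‖star z * (star c * c) * z - 1‖ < ε := by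
    intro c hc ε hε
    obtain ⟨z, hz, hz2⟩ := Aalg_pi D h0 hD0 (c : Fk D Set.univ →L[ℂ] Fk D Set.univ) c.2
      (fun h => hc (Subtype.ext h)) ε hε
    exact ⟨⟨z, hz⟩, hz2⟩
  have hex := exact_of_approx hpi
  have hss : star (⟨cr l0, hmem⟩ : Aalg D) * ⟨cr l0, hmem⟩ = 1 :=
    Subtype.ext (cr_star_mul_same l0)
  have hss' : (⟨cr l0, hmem⟩ : Aalg D) * star ⟨cr l0, hmem⟩ ≠ 1 := by
    intro h
    have h1 : cr l0 * star (cr l0) = 1 := congrArg Subtype.val h
    have h2 : (cr l0 * star (cr l0)) (bas []) =
        (1 : Fk D Set.univ →L[ℂ] Fk D Set.univ) (bas []) := by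
      rw [h1]
    have h3 : (cr l0 * star (cr l0)) (bas []) = 0 := by
      change cr l0 (star (cr l0) (bas [])) = 0
      rw [cr_star_nil, map_zero]
    rw [h3] at h2
    have h4 := (bas_orthonormal (D := D) (q := Set.univ)).1 []
    rw [show (bas [] : Fk D Set.univ) = 0 from h2.symm, norm_zero] at h4
    exact zero_ne_one h4
  have hsimp : ∀ I : TwoSidedIdeal (Aalg D), I = ⊥ ∨ I = ⊤ := by
    intro I
    by_cases h : I = ⊥
    · exact Or.inl h
    · right
      obtain ⟨c, hcI, hc⟩ : ∃ c ∈ I, c ≠ 0 := by
        by_contra hcon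
        push Not at hcon
        apply h
        rw [eq_bot_iff]
        intro x hx
        rw [TwoSidedIdeal.mem_bot]
        exact hcon x hx
      obtain ⟨x, hx⟩ := hex c hc
      have h1 : (1 : Aalg D) ∈ I := by
        rw [← hx]
        exact I.mul_mem_right _ _ (I.mul_mem_left _ _ (I.mul_mem_left _ _ hcI))
      rw [eq_top_iff]
      intro x _
      have := I.mul_mem_left x 1 h1
      rwa [mul_one] at this
  refine ⟨Aalg D, inferInstance, Aalg_separable D, hnt, ?_, ?_, pi_of hex _ hss hss', hex, hemp,
    ?_⟩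
  · intro I _ hI
    by_cases h : I = ⊥
    · exact Or.inl h
    · right
      obtain ⟨c, hcI, hc⟩ := (Submodule.ne_bot_iff I).1 h
      obtain ⟨x, hx⟩ := hex c hc
      have h1 : (1 : Aalg D) ∈ I := by
        rw [← hx]
        exact (hI x _ (hI (star x) _ (hI (star c) c hcI).1).1).2
      rw [eq_top_iff]
      intro y _
      have := (hI y 1 h1).1
      rwa [mul_one] at this
  · exact { simple := { exists_pair_ne := ⟨⊥, ⊤, by
              intro h
              have h1 : (1 : Aalg D) ∈ (⊤ : TwoSidedIdeal (Aalg D)) := trivial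
              rw [← h, TwoSidedIdeal.mem_bot] at h1
              exact one_ne_zero h1⟩
                        eq_bot_or_eq_top := hsimp } }
  · rintro ⟨φ, hφ, hmul, hstar⟩
    refine hemp.false (StarAlgEquiv.ofBijective
      ({ toFun := fun a => MulOpposite.op (φ a)
         map_smul' := fun c a => by simp
         map_zero' := by simp
         map_add' := fun a b => by simp
         map_mul' := fun a b => by simp [hmul]
         map_star' := fun a => by rw [hstar]; rfl } : Aalg D →⋆ₙₐ[ℂ] (Aalg D)ᵐᵒᵖ) ?_)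
    exact MulOpposite.op_bijective.comp hφ

end Pool.Agent.Results.MP_c8b4d4_an.PurelyInfinite
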